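import Pool.Agent.L7h95.CD.Few
import Pool.Agent.L7h95.CD.Nb
import Pool.Agent.L7h95.CD.U6
import Pool.Agent.L7h9.CD.Gra
import Pool.Agent.L7h16.CD.U1
import Pool.Agent.L7h74.CD.U2
import Pool.Agent.L7h82.CD.U3
import Pool.Agent.L7h63.CD.U4
import Pool.Agent.L7h61.CD.U5

set_option autoImplicit false

/-!
# MP_ede3c6_co: the cubical dimension of caterpillars with few leaves
-/

namespace Pool.Agent.Results.MP_ede3c6_co.FewLeaves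

open Pool.Agent.L7h95.CD

theorem result (k A : ℕ) (a : Fin k → ℕ) (hk : 1 ≤ k) (hA : 1 ≤ A) (ha : ∀ i, a i ≤ A) :
    cd (Cat k a) ≤ max (Nat.clog 2 k + Nat.clog 2 (A + 1) + 2) (A + 2 ^ Nat.clog 2 (A + 1) + 1) ∧
    ((∀ i, a i = A) → Nat.clog 2 (k * (A + 1)) ≤ cd (Cat k a) ∧
      (A + 2 ^ Nat.clog 2 (A + 1) ≤ Nat.clog 2 k + Nat.clog 2 (A + 1) + 1 →
        cd (Cat k a) ≤ Nat.clog 2 (k * (A + 1)) + 3)) := by
  have hG : S_GRA := Pool.Agent.L7h9.CD.s_GRA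
  have h4 : S_U4 := Pool.Agent.L7h63.CD.s_U4
  exact few (s_U6 hG s_NB (Pool.Agent.L7h74.CD.s_U2 Pool.Agent.L7h16.CD.s_U1 hG)
    Pool.Agent.L7h82.CD.s_U3 h4 (Pool.Agent.L7h61.CD.s_U5 h4)) k A a hk hA ha

end Pool.Agent.Results.MP_ede3c6_co.FewLeaves
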