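import Pool.Agent.L7h95.CD.Crit2
import Pool.Agent.L7h95.CD.Nb
import Pool.Agent.L7h69.CD.Low
import Pool.Agent.L7h93.CD.Upp
import Pool.Agent.L7h63.CD.Tok
import Pool.Agent.L7h47.CD.Snk
import Pool.Agent.L7h9.CD.Gra
import Pool.Agent.L7h9.CD.Di1
import Pool.Agent.L7h60.CD.Di2
import Pool.Agent.L7h74.CD.Di3
import Pool.Agent.L7h60.CD.Co2
import Pool.Agent.L7h9.CD.Dj1
import Pool.Agent.L7h53.CD.Dj2
import Pool.Agent.L7h73.CD.Dj3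

set_option autoImplicit false

/-!
# MP_ede3c6_co: the cubical dimension of caterpillars with long spines
-/

namespace Pool.Agent.Results.MP_ede3c6_co.LongSpines

open Pool.Agent.L7h95.CD

theorem result (k : ℕ) (a : Fin k → ℕ) (D : ℕ) (hD1 : 1 ≤ D) (hD : ∀ i, dg k a i ≤ D)
    (hD' : ∃ i, dg k a i = D) :
    (∀ n, EmbQ (Cat k a) n → D < n ∨ D = n ∧ Sep k a D) ∧
    (∀ n, Short2 k n → (D < n ∨ D = n ∧ Sep k a D) → EmbQ (Cat k a) n) ∧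
    (Short2 k D → (Sep k a D → cd (Cat k a) = D) ∧ (¬ Sep k a D → cd (Cat k a) = D + 1)) ∧
    (∀ n, k ≤ 2 ^ (n - 4 * Nat.sqrt n - 8) → Short2 k n) ∧
    (∀ n, k ≤ 2 ^ (n - 2 * (3 * Nat.log 2 n + 1) ^ 2) → Short2 k n) := by
  have hNB : S_NB := s_NB
  have hCNT : S_CNT := s_CNT hNB
  have hSNK : S_SNK := Pool.Agent.L7h47.CD.s_SNK Pool.Agent.L7h63.CD.s_COD
    Pool.Agent.L7h9.CD.s_GRA Pool.Agent.L7h9.CD.s_DI1 Pool.Agent.L7h60.CD.s_DI2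
    Pool.Agent.L7h74.CD.s_DI3
  have hSN2 : S_SN2 := Pool.Agent.L7h60.CD.s_SN2 Pool.Agent.L7h60.CD.s_CO2
    Pool.Agent.L7h9.CD.s_GRA Pool.Agent.L7h9.CD.s_DJ1 Pool.Agent.L7h53.CD.s_DJ2
    Pool.Agent.L7h73.CD.s_DJ3
  obtain ⟨h1, h2, h3⟩ := s_MAIN2 (Pool.Agent.L7h69.CD.s_LOW hNB hCNT) hCNT
    (Pool.Agent.L7h93.CD.s_UPP hNB) Pool.Agent.L7h63.CD.s_TOK hSNK hSN2 s_GEO k a D hD1 hD hD'
  exact ⟨h1, h2, h3, fun n hn => Or.inl (short_of n k hn), fun n hn => short2_of n k hn⟩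

end Pool.Agent.Results.MP_ede3c6_co.LongSpines
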